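import Pool.Agent.Lib.MP_06b617_an.OrderSum

set_option autoImplicit false

/-!
Transfer of the results of `OrderSum` to a Banach space ordered by an explicitly given closed cone.
-/

namespace Pool.Agent.Lib.MP_06b617_an

open Filter Topology Set

variable {X : Type*} [NormedAddCommGroup X] [NormedSpace ℝ X]

/-- The order induced by a cone. -/
@[reducible] def coneOrder (K : Set X) (hadd : ∀ x ∈ K, ∀ y ∈ K, x + y ∈ K)
    (hpointed : K ∩ (-K) = {0}) : PartialOrder X where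
  le x y := y - x ∈ K
  le_refl x := by
    have : (0 : X) ∈ K ∩ (-K) := by rw [hpointed]; rfl
    simpa using this.1
  le_trans x y z h1 h2 := by
    have := hadd _ h1 _ h2
    simpa using this
  le_antisymm x y h1 h2 := by
    have : y - x ∈ K ∩ (-K) := ⟨h1, by simpa using h2⟩
    rw [hpointed] at this
    exact (sub_eq_zero.1 this).symm

theorem cone_results [CompleteSpace X] (K : Set X) (hclosed : IsClosed K)
    (hadd : ∀ x ∈ K, ∀ y ∈ K, x + y ∈ K) (hsmul : ∀ t : ℝ, 0 ≤ t → ∀ x ∈ K, t • x ∈ K)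
    (hpointed : K ∩ (-K) = {0})
    (hS : ∀ x : ℕ → X, (∀ n, x (n + 1) - x n ∈ K) → (∃ v, ∀ n, v - x n ∈ K) →
      ∃ s, (∀ n, s - x n ∈ K) ∧ ∀ v, (∀ n, v - x n ∈ K) → v - s ∈ K) :
    (∃ c : ℝ, 1 ≤ c ∧ ∀ x y : X, x ∈ K → y - x ∈ K → ‖x‖ ≤ c * ‖y‖) ∧
    (TopologicalSpace.SeparableSpace X → ∀ x : ℕ → X, (∀ n, x (n + 1) - x n ∈ K) →
      (∃ v, ∀ n, v - x n ∈ K) → ∃ l, Tendsto x atTop (𝓝 l)) := by
  letI : PartialOrder X := coneOrder K hadd hpointed
  have hle : ∀ x y : X, x ≤ y ↔ y - x ∈ K := fun _ _ => Iff.rfl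
  haveI : IsOrderedAddMonoid X :=
    { add_le_add_left := fun a b h c => by
        rw [hle] at h ⊢
        simpa using h }
  haveI : PosSMulMono ℝ X := ⟨fun t ht a b h => by
    rw [hle] at h ⊢
    rw [← smul_sub]
    exact hsmul t ht _ h⟩
  have hK : IsClosed {x : X | 0 ≤ x} := by
    have : {x : X | 0 ≤ x} = K := by
      ext x
      simp [hle]
    rwa [this]
  have hS' : ∀ x : ℕ → X, Monotone x → BddAbove (range x) → ∃ s, IsLUB (range x) s := by
    rintro x hx ⟨v, hv⟩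
    obtain ⟨s, hs1, hs2⟩ := hS x (fun n => hx (Nat.le_succ n)) ⟨v, fun n => hv ⟨n, rfl⟩⟩
    exact ⟨s, by rintro _ ⟨n, rfl⟩; exact hs1 n, fun w hw => hs2 w fun n => hw ⟨n, rfl⟩⟩
  constructor
  · obtain ⟨c, hc, h⟩ := normal_of_S hK hS'
    exact ⟨c, hc, fun x y hx hy => h x y (by simpa [hle] using hx) hy⟩
  · rintro _ x hx ⟨v, hv⟩
    exact converges_of_S hK hS' x (monotone_nat_of_le_succ hx)
      ⟨v, by rintro _ ⟨n, rfl⟩; exact hv n⟩

end Pool.Agent.Lib.MP_06b617_an
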