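import Pool.Agent.Lib.MP_06b617_an.Cone

set_option autoImplicit false
set_option linter.unusedSectionVars false

/-!
Under property (S), failure of norm convergence produces a positive isomorphic copy of the space
of bounded sequences and a non-separable order bounded chain.
-/

namespace Pool.Agent.Lib.MP_06b617_an

open Filter Topology Set BoundedContinuousFunction

/-- Rosenthal's lemma for non-negative superadditive set functions (Kupka's proof). -/
lemma rosenthal (μ : ℕ → Set ℕ → ℝ) {δ : ℝ} (hδ : 0 ≤ δ) (h0 : ∀ k A, 0 ≤ μ k A)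
    (hadd : ∀ k (A B C : Set ℕ), Disjoint A B → A ⊆ C → B ⊆ C → μ k A + μ k B ≤ μ k C) (n : ℕ) :
    ∀ e : ℕ → ℕ, Function.Injective e → (∀ i, μ (e i) (range e) ≤ n * δ) →
      ∃ g : ℕ → ℕ, Function.Injective g ∧ ∀ i, μ (g i) (range g \ {g i}) ≤ δ := by
  induction n with
  | zero =>
    intro e he h
    refine ⟨e, he, fun i => ?_⟩
    have h1 := hadd (e i) (range e \ {e i}) ∅ (range e) (disjoint_empty _) sdiff_subset
      (empty_subset _)
    have h2 := h i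
    rw [Nat.cast_zero, zero_mul] at h2
    linarith [h0 (e i) ∅]
  | succ n ih =>
    intro e he h
    by_contra hno
    push Not at hno
    have hp : ∀ p : ℕ, Function.Injective fun j => e (Nat.pair p j) := fun p a b hab =>
      (Nat.pair_eq_pair.1 (he hab)).2
    choose j hj using fun p => hno _ (hp p)
    obtain ⟨g, hg1, hg2⟩ := ih (fun p => e (Nat.pair p (j p)))
      (fun a b hab => (Nat.pair_eq_pair.1 (he hab)).1) (fun p => by
        have h1 := hadd (e (Nat.pair p (j p))) (range fun q => e (Nat.pair q (j q)))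
          ((range fun i => e (Nat.pair p i)) \ {e (Nat.pair p (j p))}) (range e) (by
            rw [disjoint_left]
            rintro _ ⟨q, rfl⟩ ⟨⟨i, hi⟩, h2⟩
            obtain rfl : p = q := (Nat.pair_eq_pair.1 (he hi)).1
            exact h2 rfl) (by rintro _ ⟨q, rfl⟩; exact ⟨_, rfl⟩)
          (by rintro _ ⟨⟨q, rfl⟩, -⟩; exact ⟨_, rfl⟩)
        have h2 := h (Nat.pair p (j p))
        have h3 := hj p
        push_cast at h2
        linarith)
    obtain ⟨i, hi⟩ := hno g hg1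
    exact hi.not_ge (hg2 i)

/-- Spreading a bounded sequence along an injection. -/
noncomputable def spread {g : ℕ → ℕ} (hg : Function.Injective g) : (ℕ →ᵇ ℝ) →ₗ[ℝ] (ℕ →ᵇ ℝ) where
  toFun a := ofNormedAddCommGroupDiscrete (Function.extend g a 0) ‖a‖ (fun m => by
    by_cases h : ∃ i, g i = m
    · obtain ⟨i, rfl⟩ := h
      rw [hg.extend_apply]
      exact a.norm_coe_le_norm i
    · rw [Function.extend_apply' _ _ _ h]
      simp)
  map_add' a b := by
    ext m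
    change Function.extend g (a + b) 0 m = Function.extend g a 0 m + Function.extend g b 0 m
    by_cases h : ∃ i, g i = m
    · obtain ⟨i, rfl⟩ := h
      simp [hg.extend_apply]
    · simp [Function.extend_apply' _ _ _ h]
  map_smul' c a := by
    ext m
    change Function.extend g (c • a) 0 m = c • Function.extend g a 0 m
    by_cases h : ∃ i, g i = m
    · obtain ⟨i, rfl⟩ := h
      simp [hg.extend_apply]
    · simp [Function.extend_apply' _ _ _ h]

lemma spread_on {g : ℕ → ℕ} (hg : Function.Injective g) (a : ℕ →ᵇ ℝ) (i : ℕ) :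
    spread hg a (g i) = a i := hg.extend_apply _ _ i

lemma spread_off {g : ℕ → ℕ} (hg : Function.Injective g) (a : ℕ →ᵇ ℝ) {m : ℕ}
    (h : ¬ ∃ i, g i = m) : spread hg a m = 0 := Function.extend_apply' _ _ _ h

variable {X : Type*} [NormedAddCommGroup X] [NormedSpace ℝ X]
  [PartialOrder X] [IsOrderedAddMonoid X] [PosSMulMono ℝ X]

/-- With a normal cone, a large positive vector is normed by a positive functional. -/
lemma exists_positive_functional {c r : ℝ} (hc : 0 < c) (hr : 0 < r)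
    (hn : ∀ x y : X, 0 ≤ x → x ≤ y → ‖x‖ ≤ c * ‖y‖) {d : X} (hd : 0 ≤ d) (h : c * r ≤ ‖d‖) :
    ∃ φ : X →L[ℝ] ℝ, (∀ y, 0 ≤ y → 0 ≤ φ y) ∧ φ d = 1 ∧ ∀ y, r * |φ y| ≤ ‖y‖ := by
  have hconv : Convex ℝ {y : X | ∃ b, ‖b‖ < r ∧ y ≤ b} := by
    rintro y ⟨b, hb, hy⟩ z ⟨b', hb', hz⟩ s t hs ht hst
    refine ⟨s • b + t • b', ?_, add_le_add (smul_le_smul_of_nonneg_left hy hs)
      (smul_le_smul_of_nonneg_left hz ht)⟩
    exact mem_ball_zero_iff.1 (convex_ball (0 : X) r (mem_ball_zero_iff.2 hb)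
      (mem_ball_zero_iff.2 hb') hs ht hst)
  have hopen : IsOpen {y : X | ∃ b, ‖b‖ < r ∧ y ≤ b} := by
    rw [Metric.isOpen_iff]
    rintro y ⟨b, hb, hy⟩
    refine ⟨r - ‖b‖, by linarith, fun z hz => ⟨b + (z - y), ?_, ?_⟩⟩
    · rw [Metric.mem_ball, dist_eq_norm] at hz
      linarith [norm_add_le b (z - y)]
    · calc z = y + (z - y) := by abel
        _ ≤ _ := add_le_add hy le_rfl
  obtain ⟨f, hf⟩ := geometric_hahn_banach_open_point hconv hopen (x := d) (by
    rintro ⟨b, hb, hy⟩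
    have := hn d b hd hy
    nlinarith)
  have f0 : 0 < f d := by simpa using hf 0 ⟨0, by simpa using hr, le_rfl⟩
  refine ⟨(f d)⁻¹ • f, fun y hy => ?_, by simp [f0.ne'], fun y => ?_⟩
  · refine mul_nonneg (inv_pos.2 f0).le ?_
    by_contra hneg
    replace hneg : f y < 0 := not_le.1 hneg
    have ht : 0 ≤ -(f d / f y) := neg_nonneg.2 (div_nonpos_of_nonneg_of_nonpos f0.le hneg.le)
    have h1 := hf ((f d / f y) • y) ⟨0, by simpa using hr, by
      have := smul_nonneg'' ht hy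
      rwa [neg_smul, neg_nonneg] at this⟩
    rw [map_smul, smul_eq_mul, div_mul_cancel₀ _ hneg.ne] at h1
    exact lt_irrefl _ h1
  · by_contra hlt
    push Not at hlt
    set t : ℝ := ((f d)⁻¹ • f) y with htd
    have t0 : t ≠ 0 := by
      rintro k
      rw [k, abs_zero, mul_zero] at hlt
      exact (norm_nonneg y).not_gt hlt
    have h1 := hf (t⁻¹ • y) ⟨_, by
      rw [norm_smul, norm_inv, Real.norm_eq_abs, ← div_eq_inv_mul, div_lt_iff₀ (abs_pos.2 t0)]
      exact hlt, le_rfl⟩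
    have e : f y = t * f d := by
      rw [htd]
      simp only [_root_.smul_apply, smul_eq_mul]
      field_simp
    rw [map_smul, smul_eq_mul, e, ← mul_assoc, inv_mul_cancel₀ t0, one_mul] at h1
    exact lt_irrefl _ h1

/-- A divergent order bounded increasing sequence gives a positive map that is large on the
unit vectors. -/
lemma exists_large_map [CompleteSpace X]
    (hS : ∀ x : ℕ → X, Monotone x → BddAbove (range x) → ∃ s, IsLUB (range x) s)
    (x : ℕ → X) (hx : Monotone x) (hb : BddAbove (range x))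
    (hno : ¬ ∃ l, Tendsto x atTop (𝓝 l)) :
    ∃ (ε : ℝ) (T : (ℕ →ᵇ ℝ) →ₗ[ℝ] X), 0 < ε ∧ (∀ a : ℕ →ᵇ ℝ, (∀ n, 0 ≤ a n) → 0 ≤ T a) ∧
      ∀ k, ε ≤ ‖T (ind {k})‖ := by
  have hno' : ¬ CauchySeq x := fun h => hno (cauchySeq_tendsto_of_complete h)
  rw [Metric.cauchySeq_iff'] at hno'
  push Not at hno'
  obtain ⟨ε, hε, hno⟩ := hno'
  choose f hf1 hf2 using hno
  let φ : ℕ → ℕ := fun k => f^[k] 0
  have hφ : ∀ k, φ (k + 1) = f (φ k) := fun k => Function.iterate_succ_apply' f k 0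
  let d : ℕ → X := fun k => x (φ (k + 1)) - x (φ k)
  have hd : ∀ k, 0 ≤ d k := fun k => sub_nonneg.2 (hx (by rw [hφ]; exact hf1 _))
  have hdε : ∀ k, ε ≤ ‖d k‖ := fun k => by
    have := hf2 (φ k)
    rwa [dist_eq_norm, ← hφ] at this
  obtain ⟨v, hv⟩ := hb
  have hv' : ∀ N, ∑ n ∈ Finset.range N, d n ≤ v - x (φ 0) := fun N => by
    rw [Finset.sum_range_sub (fun k => x (φ k))]
    exact sub_le_sub_right (hv ⟨_, rfl⟩) _
  obtain ⟨T, hT, hTk⟩ := exists_positive_map hS hd hv'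
  exact ⟨ε, T, hε, hT, fun k => by rw [hTk]; exact hdε k⟩

lemma ind_nonneg (A : Set ℕ) (n : ℕ) : 0 ≤ ind A n := by
  rw [ind_apply]
  by_cases h : n ∈ A <;> simp [h]

lemma map_ind_add {T : (ℕ →ᵇ ℝ) →ₗ[ℝ] X} (hT : ∀ a : ℕ →ᵇ ℝ, (∀ n, 0 ≤ a n) → 0 ≤ T a)
    {A B C : Set ℕ} (h : Disjoint A B) (hA : A ⊆ C) (hB : B ⊆ C) :
    T (ind A) + T (ind B) ≤ T (ind C) := by
  rw [← sub_nonneg, ← map_add, ← map_sub]
  refine hT _ fun n => ?_
  simp only [BoundedContinuousFunction.sub_apply, BoundedContinuousFunction.add_apply, ind_apply]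
  by_cases h1 : n ∈ A
  · simp [h1, hA h1, disjoint_left.1 h h1]
  · by_cases h2 : n ∈ B
    · simp [h1, h2, hB h2]
    · by_cases h3 : n ∈ C <;> simp [h1, h2, h3]

/-- A positive map that is large on the unit vectors is an embedding along a subsequence. -/
lemma exists_embedding [CompleteSpace X] (hK : IsClosed {x : X | 0 ≤ x}) {c ε : ℝ} (hc : 0 < c)
    (hn : ∀ x y : X, 0 ≤ x → x ≤ y → ‖x‖ ≤ c * ‖y‖) (hε : 0 < ε) {T : (ℕ →ᵇ ℝ) →ₗ[ℝ] X}
    (hT : ∀ a : ℕ →ᵇ ℝ, (∀ n, 0 ≤ a n) → 0 ≤ T a) (hk : ∀ k, ε ≤ ‖T (ind {k})‖) :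
    ∃ U : (ℕ →ᵇ ℝ) →L[ℝ] X, (∀ a : ℕ →ᵇ ℝ, (∀ n, 0 ≤ a n) → 0 ≤ U a) ∧
      ∃ m : ℝ, 0 < m ∧ ∀ a, m * ‖a‖ ≤ ‖U a‖ := by
  have hr : 0 < ε / c := div_pos hε hc
  choose φ h1 h2 h3 using fun k => exists_positive_functional hc hr hn (hT _ (ind_nonneg {k}))
    (by rw [mul_div_cancel₀ _ hc.ne']; exact hk k)
  obtain ⟨n, hN⟩ := exists_nat_ge (2 * (‖T (ind univ)‖ / (ε / c)))
  obtain ⟨g, hg, hs⟩ := rosenthal (fun k A => φ k (T (ind A))) (δ := 1 / 2) (by norm_num)
    (fun k A => h1 k _ (hT _ (ind_nonneg A)))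
    (fun k A B C h hA hB => by
      have := h1 k _ (sub_nonneg.2 (map_ind_add hT h hA hB))
      rw [map_sub, map_add] at this
      linarith) n id Function.injective_id (fun i => by
      have h4 := h3 i (T (ind univ))
      have h5 : |φ i (T (ind univ))| ≤ ‖T (ind univ)‖ / (ε / c) := by
        rw [le_div_iff₀ hr, mul_comm]
        exact h4
      simp only [range_id, id]
      linarith [le_abs_self (φ i (T (ind univ)))])
  have hU : ∀ a : ℕ →ᵇ ℝ, (∀ n, 0 ≤ a n) → 0 ≤ (T ∘ₗ spread hg) a := fun a ha =>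
    hT _ fun m => by
      by_cases h : ∃ i, g i = m
      · obtain ⟨i, rfl⟩ := h
        rw [spread_on]
        exact ha i
      · rw [spread_off hg a h]
  refine ⟨⟨T ∘ₗ spread hg, continuous_of_positive hK _ hU⟩, hU, ε / c / 2, by positivity,
    fun a => ?_⟩
  change _ ≤ ‖T (spread hg a)‖
  have key : ∀ i, ‖a i‖ ≤ ‖T (spread hg a)‖ / (ε / c) + ‖a‖ / 2 := by
    intro i
    have hb : ∀ σ : ℝ, |σ| = 1 → ∀ m, 0 ≤ (‖a‖ • ind (range g \ {g i})
        + σ • (spread hg a - a i • ind {g i})) m := by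
      intro σ hσ m
      simp only [BoundedContinuousFunction.add_apply, BoundedContinuousFunction.smul_apply,
        BoundedContinuousFunction.sub_apply, ind_apply, smul_eq_mul]
      by_cases h : ∃ j, g j = m
      · obtain ⟨j, rfl⟩ := h
        rw [spread_on]
        by_cases hj : j = i
        · subst hj
          simp
        · have h4 : g j ≠ g i := fun k => hj (hg k)
          have h5 : |σ * a j| ≤ ‖a‖ := by
            rw [abs_mul, hσ, one_mul]
            exact a.norm_coe_le_norm j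
          have h6 := (abs_le.1 h5).1
          simp only [Set.indicator, Set.mem_sdiff, mem_range_self, mem_singleton_iff, h4,
            not_false_eq_true, and_self, if_true, if_false, Pi.one_apply, mul_one, mul_zero,
            sub_zero]
          linarith
      · have h4 : m ≠ g i := fun k => h ⟨i, k.symm⟩
        have h5 : m ∉ range g := h
        simp [spread_off hg a h, h4, h5]
    have e1 := h1 (g i) _ (hT _ (hb 1 (by simp)))
    have e2 := h1 (g i) _ (hT _ (hb (-1) (by simp)))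
    simp only [map_add, map_smul, map_sub, smul_eq_mul, h2] at e1 e2
    have e3 : ‖a‖ * φ (g i) (T (ind (range g \ {g i}))) ≤ ‖a‖ * (1 / 2) :=
      mul_le_mul_of_nonneg_left (hs i) (norm_nonneg a)
    have e4 : |φ (g i) (T (spread hg a))| ≤ ‖T (spread hg a)‖ / (ε / c) := by
      rw [le_div_iff₀ hr, mul_comm]
      exact h3 _ _
    have e5 := abs_le.1 e4
    rw [Real.norm_eq_abs, abs_le]
    constructor <;> linarith [e5.1, e5.2]
  have h7 : ‖a‖ ≤ ‖T (spread hg a)‖ / (ε / c) + ‖a‖ / 2 :=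
    (BoundedContinuousFunction.norm_le (by positivity)).2 key
  have h8 : ‖a‖ / 2 ≤ ‖T (spread hg a)‖ / (ε / c) := by linarith
  rw [le_div_iff₀ hr] at h8
  linarith

/-- A positive map that is large on the unit vectors gives a non-separable bounded chain. -/
lemma exists_chain {c ε : ℝ} (hc : 0 < c)
    (hn : ∀ x y : X, 0 ≤ x → x ≤ y → ‖x‖ ≤ c * ‖y‖) (hε : 0 < ε) {T : (ℕ →ᵇ ℝ) →ₗ[ℝ] X}
    (hT : ∀ a : ℕ →ᵇ ℝ, (∀ n, 0 ≤ a n) → 0 ≤ T a) (hk : ∀ k, ε ≤ ‖T (ind {k})‖) :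
    ∃ C : Set X, (∀ x ∈ C, ∀ y ∈ C, x ≤ y ∨ y ≤ x) ∧ (∃ u v, ∀ x ∈ C, u ≤ x ∧ x ≤ v) ∧
      ¬ TopologicalSpace.IsSeparable C := by
  obtain ⟨q, hq⟩ := exists_surjective_nat ℚ
  let p : ℝ → X := fun t => T (ind {k | (q k : ℝ) < t})
  have hstep : ∀ s t : ℝ, s < t → ∃ k, T (ind {k}) ≤ p t - p s := by
    intro s t hst
    obtain ⟨r, hr1, hr2⟩ := exists_rat_btwn hst
    obtain ⟨k, rfl⟩ := hq r
    refine ⟨k, le_sub_iff_add_le.2 (map_ind_add hT ?_ ?_ fun n hn => lt_trans hn hst)⟩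
    · exact disjoint_singleton_left.2 hr1.not_gt
    · exact singleton_subset_iff.2 hr2
  have hmono : ∀ s t : ℝ, s < t → p s ≤ p t := fun s t hst => by
    obtain ⟨k, h⟩ := hstep s t hst
    exact sub_nonneg.1 ((hT _ (ind_nonneg _)).trans h)
  have hsep : ∀ s t : ℝ, s < t → ε / c ≤ ‖p t - p s‖ := fun s t hst => by
    obtain ⟨k, h⟩ := hstep s t hst
    rw [div_le_iff₀ hc, mul_comm]
    exact (hk k).trans (hn _ _ (hT _ (ind_nonneg _)) h)
  refine ⟨range p, ?_, ⟨0, T (ind univ), ?_⟩, fun h => ?_⟩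
  · rintro _ ⟨s, rfl⟩ _ ⟨t, rfl⟩
    rcases lt_trichotomy s t with h | rfl | h
    exacts [Or.inl (hmono s t h), Or.inl le_rfl, Or.inr (hmono t s h)]
  · rintro _ ⟨s, rfl⟩
    refine ⟨hT _ (ind_nonneg _), ?_⟩
    exact (le_add_of_nonneg_right (hT _ (ind_nonneg ∅))).trans
      (map_ind_add hT (disjoint_empty _) (subset_univ _) (subset_univ _))
  · have hδ : 0 < ε / c / 2 := by positivity
    obtain ⟨D, hD, hcl⟩ := h
    choose z hz1 hz2 using fun t : ℝ => Metric.mem_closure_iff.1 (hcl ⟨t, rfl⟩) _ hδ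
    have hne : ∀ s t : ℝ, s < t → z s ≠ z t := fun s t hst k => by
      have h1 := hsep s t hst
      have h2 := dist_triangle_right (p t) (p s) (z t)
      have h3 := hz2 s
      rw [k] at h3
      rw [dist_eq_norm] at h2
      linarith [hz2 t]
    have hinj : Function.Injective fun t : ℝ => (⟨z t, hz1 t⟩ : D) := fun s t k => by
      have k' : z s = z t := congrArg Subtype.val k
      rcases lt_trichotomy s t with h | h | h
      exacts [absurd k' (hne s t h), h, absurd k'.symm (hne t s h)]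
    have := hD.to_subtype
    exact not_countable hinj.countable

/-- A positive embedding of the bounded sequences gives a divergent increasing sequence. -/
lemma diverges_of_embedding {U : (ℕ →ᵇ ℝ) →L[ℝ] X}
    (hU : ∀ a : ℕ →ᵇ ℝ, (∀ n, 0 ≤ a n) → 0 ≤ U a) {m : ℝ} (hm : 0 < m)
    (h : ∀ a, m * ‖a‖ ≤ ‖U a‖) :
    ∃ x : ℕ → X, Monotone x ∧ BddAbove (range x) ∧ ¬ ∃ l, Tendsto x atTop (𝓝 l) := by
  have hle : ∀ A C : Set ℕ, A ⊆ C → U (ind A) ≤ U (ind C) := fun A C hA =>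
    (le_add_of_nonneg_right (hU _ (ind_nonneg ∅))).trans
      (map_ind_add (T := U.toLinearMap) hU (disjoint_empty _) hA (empty_subset _))
  refine ⟨fun n => U (ind (Iio n)), fun a b hab => hle _ _ (Iio_subset_Iio hab),
    ⟨U (ind univ), by rintro _ ⟨n, rfl⟩; exact hle _ _ (subset_univ _)⟩, ?_⟩
  rintro ⟨l, hl⟩
  obtain ⟨N, hN⟩ := Metric.cauchySeq_iff'.1 hl.cauchySeq m hm
  have h1 := hN (N + 1) (Nat.le_succ N)
  rw [dist_eq_norm, ← map_sub] at h1
  have h2 := (ind (Iio (N + 1)) - ind (Iio N)).norm_coe_le_norm N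
  have h3 : (ind (Iio (N + 1)) - ind (Iio N)) N = 1 := by
    simp [ind_apply]
  rw [h3, norm_one] at h2
  nlinarith [h (ind (Iio (N + 1)) - ind (Iio N))]

/-- If order bounded increasing sequences converge, order bounded chains are separable. -/
lemma isSeparable_chain (hK : IsClosed {x : X | 0 ≤ x})
    (h : ∀ x : ℕ → X, Monotone x → BddAbove (range x) → ∃ l, Tendsto x atTop (𝓝 l))
    {C : Set X} (hC : ∀ x ∈ C, ∀ y ∈ C, x ≤ y ∨ y ≤ x) {u v : X} (hb : ∀ x ∈ C, u ≤ x ∧ x ≤ v) :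
    TopologicalSpace.IsSeparable C := by
  have cl : ∀ {Y : Type _} [TopologicalSpace Y] {f g : Y → X}, Continuous f → Continuous g →
      IsClosed {y | f y ≤ g y} := fun {Y} _ f g hf hg => by
    have := hK.preimage (hg.sub hf)
    simpa only [preimage_ofPred_eq, Pi.sub_apply, sub_nonneg] using this
  have h1 : ∀ x ∈ closure C, ∀ y ∈ closure C, x ≤ y ∨ y ≤ x := by
    intro x hx y hy
    have hz : (x, y) ∈ closure (C ×ˢ C) := by
      rw [closure_prod_eq]
      exact ⟨hx, hy⟩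
    have hcl : IsClosed ({z : X × X | z.1 ≤ z.2} ∪ {z : X × X | z.2 ≤ z.1}) :=
      (cl continuous_fst continuous_snd).union (cl continuous_snd continuous_fst)
    exact closure_minimal (fun z hz => hC _ hz.1 _ hz.2) hcl hz
  have h2 : ∀ x ∈ closure C, u ≤ x ∧ x ≤ v := fun x hx =>
    closure_minimal (t := {x | u ≤ x} ∩ {x | x ≤ v}) (fun z hz => hb z hz)
      ((cl continuous_const continuous_id).inter (cl continuous_id continuous_const)) hx
  refine (IsSeqCompact.isCompact (s := closure C) fun x hx => ?_).isSeparable.mono subset_closure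
  obtain ⟨g, hg | hg⟩ := exists_increasing_or_nonincreasing_subseq' (· ≤ ·) x
  · obtain ⟨l, hl⟩ := h (x ∘ g) (monotone_nat_of_le_succ hg)
      ⟨v, by rintro _ ⟨n, rfl⟩; exact (h2 _ (hx _)).2⟩
    exact ⟨l, isClosed_closure.mem_of_tendsto hl (Eventually.of_forall fun n => hx _), g,
      g.strictMono, hl⟩
  · obtain ⟨l, hl⟩ := h (fun n => -x (g n)) (monotone_nat_of_le_succ fun n => neg_le_neg
      ((h1 _ (hx _) _ (hx _)).resolve_left (hg n (n + 1) (Nat.lt_succ_self n))))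
      ⟨-u, by rintro _ ⟨n, rfl⟩; exact neg_le_neg (h2 _ (hx _)).1⟩
    have hl' : Tendsto (x ∘ g) atTop (𝓝 (-l)) := by simpa [Function.comp_def] using hl.neg
    exact ⟨-l, isClosed_closure.mem_of_tendsto hl' (Eventually.of_forall fun n => hx _), g,
      g.strictMono, hl'⟩

theorem tfae_of_S [CompleteSpace X] (hK : IsClosed {x : X | 0 ≤ x})
    (hS : ∀ x : ℕ → X, Monotone x → BddAbove (range x) → ∃ s, IsLUB (range x) s) :
    List.TFAE [∀ x : ℕ → X, Monotone x → BddAbove (range x) → ∃ l, Tendsto x atTop (𝓝 l),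
      ∀ C : Set X, (∀ x ∈ C, ∀ y ∈ C, x ≤ y ∨ y ≤ x) → (∃ u v, ∀ x ∈ C, u ≤ x ∧ x ≤ v) →
        TopologicalSpace.IsSeparable C,
      ¬ ∃ T : (ℕ →ᵇ ℝ) →L[ℝ] X, (∀ a : ℕ →ᵇ ℝ, (∀ n, 0 ≤ a n) → 0 ≤ T a) ∧
          ∃ m : ℝ, 0 < m ∧ ∀ a, m * ‖a‖ ≤ ‖T a‖] := by
  obtain ⟨c, hc, hn⟩ := normal_of_S hK hS
  have hc0 : 0 < c := by linarith
  tfae_have 1 → 2 := fun h C hC ⟨u, v, hb⟩ => isSeparable_chain hK h hC hb
  tfae_have 2 → 1 := fun h x hx hb => by
    by_contra hno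
    obtain ⟨ε, T, hε, hT, hk⟩ := exists_large_map hS x hx hb hno
    obtain ⟨C, h1, h2, h3⟩ := exists_chain hc0 hn hε hT hk
    exact h3 (h C h1 h2)
  tfae_have 1 → 3 := by
    rintro h ⟨T, hT, m, hm, hl⟩
    obtain ⟨x, h1, h2, h3⟩ := diverges_of_embedding hT hm hl
    exact h3 (h x h1 h2)
  tfae_have 3 → 1 := fun h x hx hb => by
    by_contra hno
    obtain ⟨ε, T, hε, hT, hk⟩ := exists_large_map hS x hx hb hno
    exact h (exists_embedding hK hc0 hn hε hT hk)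
  tfae_finish

omit [PartialOrder X] [IsOrderedAddMonoid X] [PosSMulMono ℝ X] in
theorem cone_tfae [CompleteSpace X] (K : Set X) (hclosed : IsClosed K)
    (hadd : ∀ x ∈ K, ∀ y ∈ K, x + y ∈ K) (hsmul : ∀ t : ℝ, 0 ≤ t → ∀ x ∈ K, t • x ∈ K)
    (hpointed : K ∩ (-K) = {0})
    (hS : ∀ x : ℕ → X, (∀ n, x (n + 1) - x n ∈ K) → (∃ v, ∀ n, v - x n ∈ K) →
      ∃ s, (∀ n, s - x n ∈ K) ∧ ∀ v, (∀ n, v - x n ∈ K) → v - s ∈ K) :
    List.TFAE [∀ x : ℕ → X, (∀ n, x (n + 1) - x n ∈ K) → (∃ v, ∀ n, v - x n ∈ K) →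
        ∃ l, Tendsto x atTop (𝓝 l),
      ∀ C : Set X, (∀ x ∈ C, ∀ y ∈ C, y - x ∈ K ∨ x - y ∈ K) →
        (∃ u v, ∀ x ∈ C, x - u ∈ K ∧ v - x ∈ K) → TopologicalSpace.IsSeparable C,
      ¬ ∃ T : (ℕ →ᵇ ℝ) →L[ℝ] X, (∀ a : ℕ →ᵇ ℝ, (∀ n, 0 ≤ a n) → T a ∈ K) ∧
          ∃ m : ℝ, 0 < m ∧ ∀ a, m * ‖a‖ ≤ ‖T a‖] := by
  letI : PartialOrder X := coneOrder K hadd hpointed
  have hle : ∀ x y : X, x ≤ y ↔ y - x ∈ K := fun _ _ => Iff.rfl
  have : IsOrderedAddMonoid X :=
    { add_le_add_left := fun a b h c => by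
        rw [hle] at h ⊢
        simpa using h }
  have : PosSMulMono ℝ X := ⟨fun t ht a b h => by
    rw [hle] at h ⊢
    rw [← smul_sub]
    exact hsmul t ht _ h⟩
  have h0 : ∀ x : X, 0 ≤ x ↔ x ∈ K := fun x => by rw [hle, sub_zero]
  have hK : IsClosed {x : X | 0 ≤ x} := by
    simp only [h0]
    exact hclosed
  have hS' : ∀ x : ℕ → X, Monotone x → BddAbove (range x) → ∃ s, IsLUB (range x) s := by
    rintro x hx ⟨v, hv⟩
    obtain ⟨s, hs1, hs2⟩ := hS x (fun n => hx (Nat.le_succ n)) ⟨v, fun n => hv ⟨n, rfl⟩⟩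
    exact ⟨s, by rintro _ ⟨n, rfl⟩; exact hs1 n, fun w hw => hs2 w fun n => hw ⟨n, rfl⟩⟩
  have e : (∀ x : ℕ → X, (∀ n, x (n + 1) - x n ∈ K) → (∃ v, ∀ n, v - x n ∈ K) →
      ∃ l, Tendsto x atTop (𝓝 l)) ↔
      ∀ x : ℕ → X, Monotone x → BddAbove (range x) → ∃ l, Tendsto x atTop (𝓝 l) :=
    ⟨fun h x hx ⟨v, hv⟩ => h x (fun n => hx (Nat.le_succ n)) ⟨v, fun n => hv ⟨n, rfl⟩⟩,
      fun h x hx ⟨v, hv⟩ => h x (monotone_nat_of_le_succ hx)
        ⟨v, by rintro _ ⟨n, rfl⟩; exact hv n⟩⟩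
  have t := tfae_of_S hK hS'
  simp only [h0] at t
  rw [e]
  exact t

end Pool.Agent.Lib.MP_06b617_an
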