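import Mathlib

set_option autoImplicit false
set_option linter.unusedSectionVars false

/-!
Ordered Banach spaces in which order bounded increasing sequences have suprema: order sums
`a ↦ ∑ a n • d n` give a positive, hence bounded, operator on the space of bounded sequences.
-/

namespace Pool.Agent.Lib.MP_06b617_an

open Filter Topology Set BoundedContinuousFunction

variable {X : Type*} [NormedAddCommGroup X] [NormedSpace ℝ X]
  [PartialOrder X] [IsOrderedAddMonoid X] [PosSMulMono ℝ X]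

/-- The indicator of a set of natural numbers as a bounded sequence. -/
noncomputable def ind (A : Set ℕ) : ℕ →ᵇ ℝ :=
  ofNormedAddCommGroupDiscrete (A.indicator 1) 1 (fun n => by
    by_cases h : n ∈ A <;> simp [h])

lemma ind_apply (A : Set ℕ) (n : ℕ) : ind A n = A.indicator 1 n := rfl

lemma norm_ind_le (A : Set ℕ) : ‖ind A‖ ≤ 1 := by
  rw [BoundedContinuousFunction.norm_le zero_le_one]
  intro n
  rw [ind_apply]
  by_cases h : n ∈ A <;> simp [h]

lemma smul_le_smul_of_nonneg' {s t : ℝ} {x : X} (h : s ≤ t) (hx : 0 ≤ x) : s • x ≤ t • x := by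
  have h1 : (t - s) • (0 : X) ≤ (t - s) • x := smul_le_smul_of_nonneg_left hx (sub_nonneg.2 h)
  rw [smul_zero, sub_smul] at h1
  exact sub_nonneg.1 h1

lemma smul_nonneg'' {t : ℝ} {x : X} (h : 0 ≤ t) (hx : 0 ≤ x) : 0 ≤ t • x := by
  simpa using smul_le_smul_of_nonneg' h hx

lemma nonpos_of_le_tail {u : ℕ → X} (hu : Monotone u) {s : X} (hs : IsLUB (range u) s)
    {w : X} {t : ℝ} (ht : 0 ≤ t) (h : ∀ᶠ N in atTop, w ≤ t • (s - u N)) : w ≤ 0 := by
  rcases ht.eq_or_lt with rfl | ht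
  · obtain ⟨N, hN⟩ := h.exists
    simpa using hN
  have h1 : s ≤ s - t⁻¹ • w := by
    apply hs.2
    rintro _ ⟨M, rfl⟩
    obtain ⟨N, hN, hMN⟩ := (h.and (eventually_ge_atTop M)).exists
    have h2 : t⁻¹ • w ≤ t⁻¹ • t • (s - u N) := smul_le_smul_of_nonneg_left hN (inv_pos.2 ht).le
    rw [smul_smul, inv_mul_cancel₀ ht.ne', one_smul] at h2
    exact (hu hMN).trans (le_sub_comm.1 h2)
  have h2 : t⁻¹ • w ≤ 0 := by simpa using h1
  have h3 : t • t⁻¹ • w ≤ t • (0 : X) := smul_le_smul_of_nonneg_left h2 ht.le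
  rwa [smul_smul, mul_inv_cancel₀ ht.ne', one_smul, smul_zero] at h3

/-- `z` is the order sum of the series `∑ a n • d n`, where `s` is the supremum of the sums of `d`. -/
def IsOSum (d : ℕ → X) (s : X) (a : ℕ →ᵇ ℝ) (z : X) : Prop :=
  ∃ t : ℝ, 0 ≤ t ∧ ∀ᶠ N in atTop,
    z - ∑ n ∈ Finset.range N, a n • d n ≤ t • (s - ∑ n ∈ Finset.range N, d n) ∧
    ∑ n ∈ Finset.range N, a n • d n - z ≤ t • (s - ∑ n ∈ Finset.range N, d n)

lemma monotone_sum {d : ℕ → X} (hd : ∀ n, 0 ≤ d n) :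
    Monotone fun N => ∑ n ∈ Finset.range N, d n :=
  monotone_nat_of_le_succ fun N => by
    rw [Finset.sum_range_succ]
    exact le_add_of_nonneg_right (hd N)

lemma IsOSum.add {d : ℕ → X} {s : X} {a b : ℕ →ᵇ ℝ} {z w : X} (h1 : IsOSum d s a z)
    (h2 : IsOSum d s b w) : IsOSum d s (a + b) (z + w) := by
  obtain ⟨t, ht, h1⟩ := h1
  obtain ⟨t', ht', h2⟩ := h2
  refine ⟨t + t', add_nonneg ht ht', ?_⟩
  filter_upwards [h1, h2] with N h1 h2
  simp only [BoundedContinuousFunction.add_apply, add_smul, Finset.sum_add_distrib]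
  constructor
  · convert add_le_add h1.1 h2.1 using 1
    abel
  · convert add_le_add h1.2 h2.2 using 1
    abel

lemma IsOSum.smul {d : ℕ → X} {s : X} {a : ℕ →ᵇ ℝ} {z : X} (c : ℝ) (h1 : IsOSum d s a z) :
    IsOSum d s (c • a) (c • z) := by
  obtain ⟨t, ht, h1⟩ := h1
  refine ⟨|c| * t, mul_nonneg (abs_nonneg _) ht, ?_⟩
  filter_upwards [h1] with N h1
  simp only [BoundedContinuousFunction.smul_apply, smul_eq_mul, mul_smul, ← Finset.smul_sum]
  rw [← smul_sub c z, ← smul_sub c _ z]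
  rcases le_total 0 c with hc | hc
  · rw [abs_of_nonneg hc]
    exact ⟨smul_le_smul_of_nonneg_left h1.1 hc, smul_le_smul_of_nonneg_left h1.2 hc⟩
  · rw [abs_of_nonpos hc]
    have e1 := smul_le_smul_of_nonneg_left h1.1 (neg_nonneg.2 hc)
    have e2 := smul_le_smul_of_nonneg_left h1.2 (neg_nonneg.2 hc)
    constructor
    · convert e2 using 1
      rw [neg_smul, ← smul_neg, neg_sub]
    · convert e1 using 1
      rw [neg_smul, ← smul_neg, neg_sub]

lemma IsOSum.nonneg {d : ℕ → X} (hd : ∀ n, 0 ≤ d n) {s : X}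
    (hs : IsLUB (range fun N => ∑ n ∈ Finset.range N, d n) s) {a : ℕ →ᵇ ℝ} {z : X}
    (h : IsOSum d s a z) (ha : ∀ n, 0 ≤ a n) : 0 ≤ z := by
  obtain ⟨t, ht, h⟩ := h
  rw [← neg_nonpos]
  refine nonpos_of_le_tail (monotone_sum hd) hs ht ?_
  filter_upwards [h] with N h
  refine le_trans ?_ h.2
  have : (0 : X) ≤ ∑ n ∈ Finset.range N, a n • d n :=
    Finset.sum_nonneg fun n _ => smul_nonneg'' (ha n) (hd n)
  simpa using this

lemma IsOSum.unique {d : ℕ → X} (hd : ∀ n, 0 ≤ d n) {s : X}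
    (hs : IsLUB (range fun N => ∑ n ∈ Finset.range N, d n) s) {a : ℕ →ᵇ ℝ} {z w : X}
    (h1 : IsOSum d s a z) (h2 : IsOSum d s a w) : z = w := by
  have e1 := (h1.add (h2.smul (-1))).nonneg hd hs (by simp)
  have e2 := (h2.add (h1.smul (-1))).nonneg hd hs (by simp)
  rw [neg_one_smul, ← sub_eq_add_neg, sub_nonneg] at e1 e2
  exact le_antisymm e2 e1

lemma exists_isOSum
    (hS : ∀ x : ℕ → X, Monotone x → BddAbove (range x) → ∃ s, IsLUB (range x) s)
    {d : ℕ → X} (hd : ∀ n, 0 ≤ d n) {s : X}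
    (hs : IsLUB (range fun N => ∑ n ∈ Finset.range N, d n) s) (a : ℕ →ᵇ ℝ) :
    ∃ z, IsOSum d s a z := by
  set t := ‖a‖ with htdef
  have ht : 0 ≤ t := norm_nonneg _
  have h0 : ∀ n, 0 ≤ a n + t := fun n => by
    have := abs_le.1 (show |a n| ≤ t from a.norm_coe_le_norm n)
    linarith [this.1]
  have h2 : ∀ n, a n + t ≤ 2 * t := fun n => by
    have := abs_le.1 (show |a n| ≤ t from a.norm_coe_le_norm n)
    linarith [this.2]
  have hsN : ∀ N, ∑ n ∈ Finset.range N, d n ≤ s := fun N => hs.1 ⟨N, rfl⟩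
  have hmono : Monotone fun N => ∑ n ∈ Finset.range N, (a n + t) • d n :=
    monotone_sum fun n => smul_nonneg'' (h0 n) (hd n)
  have hle : ∀ N M, ∑ n ∈ Finset.range M, (a n + t) • d n ≤
      ∑ n ∈ Finset.range N, (a n + t) • d n + (2 * t) • (s - ∑ n ∈ Finset.range N, d n) := by
    intro N M
    rcases le_total M N with h | h
    · exact (hmono h).trans (le_add_of_nonneg_right
        (smul_nonneg'' (by linarith) (sub_nonneg.2 (hsN N))))
    · rw [← Finset.sum_range_add_sum_Ico _ h]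
      refine add_le_add le_rfl ?_
      calc ∑ n ∈ Finset.Ico N M, (a n + t) • d n ≤ ∑ n ∈ Finset.Ico N M, (2 * t) • d n :=
            Finset.sum_le_sum fun n _ => smul_le_smul_of_nonneg' (h2 n) (hd n)
        _ = (2 * t) • (∑ n ∈ Finset.range M, d n - ∑ n ∈ Finset.range N, d n) := by
            rw [← Finset.smul_sum, Finset.sum_Ico_eq_sub _ h]
        _ ≤ _ := smul_le_smul_of_nonneg_left (sub_le_sub_right (hsN M) _) (by linarith)
  obtain ⟨B, hB⟩ := hS _ hmono ⟨_, by rintro _ ⟨M, rfl⟩; exact hle 0 M⟩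
  refine ⟨B - t • s, t, ht, Eventually.of_forall fun N => ?_⟩
  have e1 : ∑ n ∈ Finset.range N, (a n + t) • d n ≤ B := hB.1 ⟨N, rfl⟩
  have e2 : B ≤ ∑ n ∈ Finset.range N, (a n + t) • d n +
      (2 * t) • (s - ∑ n ∈ Finset.range N, d n) := hB.2 (by rintro _ ⟨M, rfl⟩; exact hle N M)
  simp only [add_smul, Finset.sum_add_distrib, ← Finset.smul_sum] at e1 e2
  constructor
  · rw [← sub_nonneg] at e2 ⊢
    convert e2 using 1
    simp only [smul_sub, two_mul, add_smul]
    abel
  · rw [← sub_nonneg] at e1 ⊢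
    convert e1 using 1
    simp only [smul_sub]
    abel

lemma isOSum_single (d : ℕ → X) (s : X) (k : ℕ) : IsOSum d s (ind {k}) (d k) := by
  refine ⟨0, le_rfl, ?_⟩
  filter_upwards [eventually_gt_atTop k] with N hN
  have : ∑ n ∈ Finset.range N, ind {k} n • d n = d k := by
    rw [Finset.sum_eq_single k]
    · simp [ind_apply]
    · intro n _ hn
      simp [ind_apply, hn]
    · intro h
      exact absurd (Finset.mem_range.2 hN) h
  simp [this]

/-- The positive operator `a ↦` order sum of `a n • d n`. -/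
lemma exists_positive_map
    (hS : ∀ x : ℕ → X, Monotone x → BddAbove (range x) → ∃ s, IsLUB (range x) s)
    {d : ℕ → X} (hd : ∀ n, 0 ≤ d n) {v : X} (hv : ∀ N, ∑ n ∈ Finset.range N, d n ≤ v) :
    ∃ T : (ℕ →ᵇ ℝ) →ₗ[ℝ] X, (∀ a : ℕ →ᵇ ℝ, (∀ n, 0 ≤ a n) → 0 ≤ T a) ∧
      ∀ k, T (ind {k}) = d k := by
  obtain ⟨s, hs⟩ := hS _ (monotone_sum hd) ⟨v, by rintro _ ⟨N, rfl⟩; exact hv N⟩
  choose T hT using exists_isOSum hS hd hs
  refine ⟨⟨⟨T, fun a b => (hT _).unique hd hs ((hT a).add (hT b))⟩,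
    fun c a => (hT _).unique hd hs ((hT a).smul c)⟩, fun a ha => (hT a).nonneg hd hs ha,
    fun k => (hT _).unique hd hs (isOSum_single d s k)⟩

lemma nonneg_of_forall_eps (hK : IsClosed {x : X | 0 ≤ x}) {z e : X}
    (h : ∀ ε : ℝ, 0 < ε → 0 ≤ ε • e + z) : 0 ≤ z := by
  have h1 : Tendsto (fun ε : ℝ => ε • e + z) (𝓝[>] 0) (𝓝 ((0 : ℝ) • e + z)) :=
    ((continuous_id.smul continuous_const).add continuous_const).continuousAt.tendsto.mono_left
      nhdsWithin_le_nhds
  rw [zero_smul, zero_add] at h1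
  exact hK.mem_of_tendsto h1 (eventually_nhdsWithin_of_forall fun ε hε => h ε hε)

lemma continuous_of_positive [CompleteSpace X] (hK : IsClosed {x : X | 0 ≤ x})
    (T : (ℕ →ᵇ ℝ) →ₗ[ℝ] X) (hT : ∀ a : ℕ →ᵇ ℝ, (∀ n, 0 ≤ a n) → 0 ≤ T a) : Continuous T := by
  refine T.continuous_of_seq_closed_graph fun u a y hu hy => ?_
  have key : ∀ ε : ℝ, 0 < ε → ∀ᶠ k in atTop, ∀ n, |u k n - a n| ≤ ε := by
    intro ε hε
    filter_upwards [(Metric.tendsto_nhds.1 hu) ε hε] with k hk n
    have := (u k).dist_coe_le_dist (g := a) n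
    rw [Real.dist_eq] at this
    linarith
  have h1 : 0 ≤ y - T a := by
    refine nonneg_of_forall_eps hK (e := T 1) fun ε hε => ?_
    have hl : Tendsto (fun k => ε • T 1 + (T (u k) - T a)) atTop (𝓝 (ε • T 1 + (y - T a))) :=
      tendsto_const_nhds.add (hy.sub tendsto_const_nhds)
    refine hK.mem_of_tendsto hl ?_
    filter_upwards [key ε hε] with k hk
    have := hT (ε • 1 + (u k - a)) fun n => by
      have := abs_le.1 (hk n)
      simp only [BoundedContinuousFunction.add_apply, BoundedContinuousFunction.smul_apply,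
        BoundedContinuousFunction.coe_one, Pi.one_apply, smul_eq_mul, mul_one,
        BoundedContinuousFunction.sub_apply]
      linarith [this.1]
    simpa using this
  have h2 : 0 ≤ T a - y := by
    refine nonneg_of_forall_eps hK (e := T 1) fun ε hε => ?_
    have hl : Tendsto (fun k => ε • T 1 + (T a - T (u k))) atTop (𝓝 (ε • T 1 + (T a - y))) :=
      tendsto_const_nhds.add (tendsto_const_nhds.sub hy)
    refine hK.mem_of_tendsto hl ?_
    filter_upwards [key ε hε] with k hk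
    have := hT (ε • 1 + (a - u k)) fun n => by
      have := abs_le.1 (hk n)
      simp only [BoundedContinuousFunction.add_apply, BoundedContinuousFunction.smul_apply,
        BoundedContinuousFunction.coe_one, Pi.one_apply, smul_eq_mul, mul_one,
        BoundedContinuousFunction.sub_apply]
      linarith [this.2]
    simpa using this
  exact le_antisymm (sub_nonneg.1 h2) (sub_nonneg.1 h1)

/-- Property (S) forces the cone to be normal. -/
theorem normal_of_S [CompleteSpace X] (hK : IsClosed {x : X | 0 ≤ x})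
    (hS : ∀ x : ℕ → X, Monotone x → BddAbove (range x) → ∃ s, IsLUB (range x) s) :
    ∃ c : ℝ, 1 ≤ c ∧ ∀ x y : X, 0 ≤ x → x ≤ y → ‖x‖ ≤ c * ‖y‖ := by
  by_contra hno
  push Not at hno
  have key : ∀ n : ℕ, ∃ x y : X, 0 ≤ x ∧ x ≤ y ∧ ‖y‖ ≤ (1 / 2 : ℝ) ^ n ∧ (n : ℝ) < ‖x‖ := by
    intro n
    have hc : (1 : ℝ) ≤ (n + 1) * 2 ^ n :=
      one_le_mul_of_one_le_of_one_le (by linarith [(Nat.cast_nonneg n : (0 : ℝ) ≤ n)])
        (one_le_pow₀ (by norm_num))
    obtain ⟨x, y, h0, h1, h2⟩ := hno _ hc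
    have hy : y ≠ 0 := by
      rintro rfl
      have : x = 0 := le_antisymm h1 h0
      simp [this] at h2
    have hy' : 0 < ‖y‖ := norm_pos_iff.2 hy
    have hpow : (0 : ℝ) < 2 ^ n := by positivity
    have ht : 0 < (2 ^ n * ‖y‖)⁻¹ := by positivity
    refine ⟨(2 ^ n * ‖y‖)⁻¹ • x, (2 ^ n * ‖y‖)⁻¹ • y, smul_nonneg'' ht.le h0,
      smul_le_smul_of_nonneg_left h1 ht.le, ?_, ?_⟩
    · rw [norm_smul, Real.norm_of_nonneg ht.le, one_div, inv_pow]
      apply le_of_eq
      field_simp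
    · rw [norm_smul, Real.norm_of_nonneg ht.le, ← div_eq_inv_mul, lt_div_iff₀ (by positivity)]
      nlinarith [mul_pos hpow hy']
  choose x y h0 h1 h2 h3 using key
  have hsum : Summable y :=
    Summable.of_norm_bounded summable_geometric_two h2
  have hv : ∀ N, ∑ n ∈ Finset.range N, x n ≤ ∑' n, y n := by
    intro N
    refine (Finset.sum_le_sum fun n _ => h1 n).trans ?_
    rw [← sub_nonneg]
    refine hK.mem_of_tendsto (hsum.hasSum.tendsto_sum_nat.sub tendsto_const_nhds) ?_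
    filter_upwards [eventually_ge_atTop N] with M hM
    exact sub_nonneg.2 (monotone_sum (fun n => (h0 n).trans (h1 n)) hM)
  obtain ⟨T, hT, hTk⟩ := exists_positive_map hS h0 hv
  let T' : (ℕ →ᵇ ℝ) →L[ℝ] X := ⟨T, continuous_of_positive hK T hT⟩
  obtain ⟨n, hn⟩ := exists_nat_gt ‖T'‖
  have : ‖x n‖ ≤ ‖T'‖ := by
    rw [← hTk n]
    exact (T'.le_opNorm _).trans (mul_le_of_le_one_right (norm_nonneg _) (norm_ind_le _))
  linarith [h3 n]

/-- In the separable case order bounded increasing sequences converge in norm. -/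
theorem converges_of_S [CompleteSpace X] [TopologicalSpace.SeparableSpace X]
    (hK : IsClosed {x : X | 0 ≤ x})
    (hS : ∀ x : ℕ → X, Monotone x → BddAbove (range x) → ∃ s, IsLUB (range x) s)
    (x : ℕ → X) (hx : Monotone x) (hb : BddAbove (range x)) : ∃ l, Tendsto x atTop (𝓝 l) := by
  obtain ⟨c, hc, hnormal⟩ := normal_of_S hK hS
  apply cauchySeq_tendsto_of_complete
  by_contra hno
  rw [Metric.cauchySeq_iff'] at hno
  push Not at hno
  obtain ⟨ε, hε, hno⟩ := hno
  choose f hf1 hf2 using hno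
  let φ : ℕ → ℕ := fun k => f^[k] 0
  have hφ : ∀ k, φ (k + 1) = f (φ k) := fun k => Function.iterate_succ_apply' f k 0
  let d : ℕ → X := fun k => x (φ (k + 1)) - x (φ k)
  have hd : ∀ k, 0 ≤ d k := fun k => sub_nonneg.2 (hx (by rw [hφ]; exact hf1 _))
  have hdε : ∀ k, ε ≤ ‖d k‖ := fun k => by
    have := hf2 (φ k)
    rwa [dist_eq_norm, ← hφ] at this
  obtain ⟨v, hv⟩ := hb
  have hv' : ∀ N, ∑ n ∈ Finset.range N, d n ≤ v - x (φ 0) := fun N => by
    rw [Finset.sum_range_sub (fun k => x (φ k))]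
    exact sub_le_sub_right (hv ⟨_, rfl⟩) _
  obtain ⟨T, hT, hTk⟩ := exists_positive_map hS hd hv'
  obtain ⟨q, hq⟩ := exists_surjective_nat ℚ
  let p : ℝ → X := fun t => T (ind {k | (q k : ℝ) < t})
  have hc0 : 0 < c := by linarith
  have hsep : ∀ s t : ℝ, s < t → ε / c ≤ ‖p t - p s‖ := by
    intro s t hst
    obtain ⟨r, hr1, hr2⟩ := exists_rat_btwn hst
    obtain ⟨k, rfl⟩ := hq r
    have h1 : d k ≤ p t - p s := by
      rw [← hTk k, ← sub_nonneg]
      simp only [p, ← map_sub]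
      refine hT _ fun n => ?_
      simp only [BoundedContinuousFunction.sub_apply, ind_apply]
      by_cases hn : n = k
      · subst hn
        simp [Set.indicator, hr2, hr1.not_gt]
      · by_cases hs : (q n : ℝ) < s
        · simp [Set.indicator, hn, hs, hs.trans hst]
        · by_cases ht : (q n : ℝ) < t <;> simp [Set.indicator, hn, hs, ht]
    rw [div_le_iff₀ hc0, mul_comm]
    exact (hdε k).trans (hnormal _ _ (hd k) h1)
  have hδ : 0 < ε / c / 2 := by positivity
  have hcount : Countable ℝ := by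
    refine Pairwise.countable_of_isOpen_disjoint (s := fun t : ℝ => Metric.ball (p t) (ε / c / 2))
      (fun s t hst => ?_) (fun _ => Metric.isOpen_ball) (fun t => ⟨p t, Metric.mem_ball_self hδ⟩)
    refine Metric.ball_disjoint_ball ?_
    rw [add_halves]
    rcases lt_or_gt_of_ne hst with h | h
    · rw [dist_comm, dist_eq_norm]
      exact hsep s t h
    · rw [dist_eq_norm]
      exact hsep t s h
  exact not_countable hcount

end Pool.Agent.Lib.MP_06b617_an
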